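import Pool.Agent.Helper86.DV.Trap
import Pool.Agent.Helper86.GG.Trap

/-!
# Random maps with a dominant last component, arbitrary degrees: return sets are finite
-/

set_option autoImplicit false

namespace Pool.Agent.Helper86.DV

open Finset MvPolynomial
open Pool.Agent.Helper86.MQ (pm)
open Pool.Agent.Helper26.GG (GEsc GPre)
open Pool.Agent.Helper26.GT (wd)
open Pool.Agent.Helper26.DV

variable {m : ℕ} {w : Fin (m + 1) → ℕ} {p : ℕ} [hp : Fact p.Prime]

/-- A common bound of the degrees of the first components. -/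
theorem exists_bound (hw : ∀ i : Fin m, w i.castSucc < w (Fin.last m))
    (hd : 1 ≤ w (Fin.last m)) : ∃ e, e < w (Fin.last m) ∧ ∀ i : Fin m, w i.castSucc ≤ e :=
  ⟨w (Fin.last m) - 1, by omega, fun i => by have := hw i; omega⟩

theorem le_wd {e : ℕ} (he : ∀ i : Fin m, w i.castSucc ≤ e) (i : Fin (m + 1)) :
    w i ≤ wd (w (Fin.last m)) e i := by
  rw [wd]
  refine Fin.lastCases ?_ (fun i => ?_) i
  · rw [if_pos rfl]
  · rw [if_neg (Fin.castSucc_lt_last i).ne]
    exact he i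

theorem gpre_of_vpre {e : ℕ} (he : ∀ i : Fin m, w i.castSucc ≤ e)
    {Φ : Fin (m + 1) → MvPolynomial (Fin (m + 1)) ℚ_[p]} (hΦ : VPre p m w Φ) :
    GPre p m (w (Fin.last m)) e Φ where
  deg i := (hΦ.deg i).trans (le_wd he i)
  one := hΦ.one
  int := hΦ.int

/-- **Finiteness of the return sets of an escaping orbit.** -/
theorem vfinite (hw : ∀ i : Fin m, w i.castSucc < w (Fin.last m))
    (hd : 2 ≤ w (Fin.last m)) {Φ : Fin (m + 1) → MvPolynomial (Fin (m + 1)) ℚ_[p]}
    (hΦ : VPre p m w Φ) {x : Fin (m + 1) → ℚ_[p]} (hx : ∃ n, GEsc ((pm Φ)^[n] x))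
    {F : MvPolynomial (Fin (m + 1)) ℚ_[p]} (k : ℕ)
    (hk : coeff (Finsupp.single (Fin.last m) (((fun G => bind₁ Φ G)^[k] F).totalDegree))
      ((fun G => bind₁ Φ G)^[k] F) ≠ 0) :
    {n | eval ((pm Φ)^[n] x) F = 0}.Finite := by
  obtain ⟨e, he1, he2⟩ := exists_bound hw (by omega)
  exact Pool.Agent.Helper86.GG.gfinite hd he1 (gpre_of_vpre he2 hΦ) hx k hk

end Pool.Agent.Helper86.DV
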