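import Pool.Agent.Helper26.MQ.Trap
import Pool.Agent.Helper26.GG.Defs
import Pool.Agent.Helper26.DV.Defs

/-!
# Random maps with a dominant last component, arbitrary degrees: every point escapes
-/

set_option autoImplicit false

namespace Pool.Agent.Helper86.DV

open Finset MvPolynomial
open Pool.Agent.Helper86.MQ (pm)
open Pool.Agent.Helper26.MQ (red inc coe_prod_pow toZMod_eq_zero_iff norm_eq_one_of_toZMod
  special_small cases_point)
open Pool.Agent.Helper26.GG (GEsc)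
open Pool.Agent.Helper26.DV

variable {m : ℕ} {w : Fin (m + 1) → ℕ}

theorem eval_vP {R : Type*} [CommRing R] (c : VIdx m w → R) (i : Fin (m + 1))
    (x : Fin (m + 1) → R) :
    eval x (vP c i) = ∑ t : {s : Fin (m + 1) →₀ ℕ // s.degree ≤ w i},
      c ⟨i, t⟩ * ∏ j, x j ^ (t : Fin (m + 1) →₀ ℕ) j := by
  rw [vP, map_sum]
  refine Finset.sum_congr rfl fun t _ => ?_
  rw [eval_monomial, Finsupp.prod_fintype]
  simp

theorem eval_vF {R : Type*} [CommRing R] (c : VIdx m w → R) (i : Fin (m + 1))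
    (x : Fin (m + 1) → R) :
    eval x (vF c i) = ∑ t : {s : Fin (m + 1) →₀ ℕ // s.degree ≤ w i},
      if (t : Fin (m + 1) →₀ ℕ).degree = w i then
        c ⟨i, t⟩ * ∏ j, x j ^ (t : Fin (m + 1) →₀ ℕ) j else 0 := by
  rw [vF, vP, map_sum, map_sum]
  refine Finset.sum_congr rfl fun t _ => ?_
  rw [homogeneousComponent_of_mem (isHomogeneous_monomial _ rfl)]
  by_cases h : (t : Fin (m + 1) →₀ ℕ).degree = w i
  · rw [if_pos h.symm, if_pos h, eval_monomial, Finsupp.prod_fintype]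
    simp
  · rw [if_neg (Ne.symm h), if_neg h, map_zero]

variable {p : ℕ} [hp : Fact p.Prime]

/-- The decomposition of `Φ`. -/
theorem exists_lift {Φ : Fin (m + 1) → MvPolynomial (Fin (m + 1)) ℚ_[p]} (hΦ : VPre p m w Φ)
    {c : VIdx m w → ZMod p} (hc : VRed Φ c) :
    ∃ (a : VIdx m w → ℤ_[p]) (s : ℚ_[p]), (∀ k, PadicInt.toZMod (a k) = c k) ∧ ‖s‖ = (p : ℝ) ∧
      ∀ x i, pm Φ x i = (∑ t : {s : Fin (m + 1) →₀ ℕ // s.degree ≤ w i},
        ((a ⟨i, t⟩ : ℤ_[p]) : ℚ_[p]) * ∏ j, x j ^ (t : Fin (m + 1) →₀ ℕ) j) +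
          if i = Fin.last m then s * x (Fin.last m) ^ w (Fin.last m) else 0 := by
  classical
  have hz : ∀ k : VIdx m w, ∃ z : ℤ_[p], PadicInt.toZMod z = c k ∧
      (k ≠ vsp m w → (z : ℚ_[p]) = coeff k.2.1 (Φ k.1)) := by
    intro k
    by_cases hk : k = vsp m w
    · obtain ⟨z, hz⟩ := ZMod.ringHom_surjective (PadicInt.toZMod (p := p)) (c k)
      exact ⟨z, hz, fun h => absurd hk h⟩
    · obtain ⟨z, hz1, hz2⟩ := hc k hk
      exact ⟨z, hz2, fun _ => hz1⟩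
  choose a ha1 ha2 using hz
  set s : ℚ_[p] := coeff (Finsupp.single (Fin.last m) (w (Fin.last m))) (Φ (Fin.last m)) -
    (a (vsp m w) : ℚ_[p]) with hs
  have hp1 : (1 : ℝ) < p := by exact_mod_cast hp.out.one_lt
  have hsn : ‖s‖ = (p : ℝ) := by
    have h1 : ‖(a (vsp m w) : ℚ_[p])‖ ≤ 1 := PadicInt.norm_le_one _
    have h2 : ‖coeff (Finsupp.single (Fin.last m) (w (Fin.last m))) (Φ (Fin.last m))‖ ≠
        ‖-(a (vsp m w) : ℚ_[p])‖ := by
      rw [hΦ.one, norm_neg]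
      exact fun h => absurd (h ▸ h1) (not_le.2 hp1)
    rw [hs, sub_eq_add_neg, IsUltrametricDist.norm_add_eq_max_of_norm_ne_norm h2, hΦ.one, norm_neg]
    exact max_eq_left (h1.trans hp1.le)
  refine ⟨a, s, ha1, hsn, ?_⟩
  intro x i
  -- the array of `Φ`
  have hΦ' : Φ = vP (fun k : VIdx m w => coeff (k.2 : Fin (m + 1) →₀ ℕ) (Φ k.1)) := by
    rw [vP_coeff]
    intro i t ht
    by_contra h0
    exact ht ((le_totalDegree (mem_support_iff.2 h0)).trans (hΦ.deg i))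
  have h1 : pm Φ x i = ∑ t : {s : Fin (m + 1) →₀ ℕ // s.degree ≤ w i},
      coeff (t : Fin (m + 1) →₀ ℕ) (Φ i) * ∏ j, x j ^ (t : Fin (m + 1) →₀ ℕ) j := by
    conv_lhs => rw [hΦ']
    rw [pm, eval_vP]
  rw [h1]
  by_cases hi : i = Fin.last m
  · subst hi
    rw [if_pos rfl]
    set t₀ : {s : Fin (m + 1) →₀ ℕ // s.degree ≤ w (Fin.last m)} := (vsp m w).2 with ht₀
    rw [← Finset.add_sum_erase Finset.univ (fun t :
        {s : Fin (m + 1) →₀ ℕ // s.degree ≤ w (Fin.last m)} =>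
      coeff (t : Fin (m + 1) →₀ ℕ) (Φ (Fin.last m)) * ∏ j, x j ^ (t : Fin (m + 1) →₀ ℕ) j)
      (Finset.mem_univ t₀),
      ← Finset.add_sum_erase (M := ℚ_[p]) Finset.univ (fun t :
        {s : Fin (m + 1) →₀ ℕ // s.degree ≤ w (Fin.last m)} =>
      ((a ⟨Fin.last m, t⟩ : ℤ_[p]) : ℚ_[p]) * ∏ j, x j ^ (t : Fin (m + 1) →₀ ℕ) j)
      (Finset.mem_univ t₀)]
    have h2 : ∀ t ∈ univ.erase t₀,
        coeff (t : Fin (m + 1) →₀ ℕ) (Φ (Fin.last m)) * ∏ j, x j ^ (t : Fin (m + 1) →₀ ℕ) j =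
        ((a ⟨Fin.last m, t⟩ : ℤ_[p]) : ℚ_[p]) * ∏ j, x j ^ (t : Fin (m + 1) →₀ ℕ) j := by
      intro t ht
      rw [← ha2 ⟨Fin.last m, t⟩]
      intro h3
      refine (Finset.mem_erase.1 ht).1 ?_
      have h4 := (Sigma.ext_iff.1 h3).2
      exact eq_of_heq h4
    rw [Finset.sum_congr rfl h2]
    have h3 : ∏ j, x j ^ (t₀ : Fin (m + 1) →₀ ℕ) j = x (Fin.last m) ^ w (Fin.last m) := by
      change ∏ j, x j ^ (Finsupp.single (Fin.last m) (w (Fin.last m)) : Fin (m + 1) →₀ ℕ) j = _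
      rw [Finset.prod_eq_single (Fin.last m)]
      · simp
      · intro b _ hb
        rw [Finsupp.single_apply, if_neg (Ne.symm hb), pow_zero]
      · simp
    have h4 : coeff (t₀ : Fin (m + 1) →₀ ℕ) (Φ (Fin.last m)) =
        coeff (Finsupp.single (Fin.last m) (w (Fin.last m))) (Φ (Fin.last m)) := rfl
    have h5 : a ⟨Fin.last m, t₀⟩ = a (vsp m w) := rfl
    simp only [h3, h4, h5]
    rw [hs]
    ring
  · rw [if_neg hi, add_zero]
    refine Finset.sum_congr rfl fun t _ => ?_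
    rw [← ha2 ⟨i, t⟩]
    intro h3
    exact hi (congrArg Sigma.fst h3)

/-- One step at an integral point whose reduction is in the hyperplane. -/
theorem stepA (hd : 2 ≤ w (Fin.last m)) {Φ : Fin (m + 1) → MvPolynomial (Fin (m + 1)) ℚ_[p]}
    {c : VIdx m w → ZMod p} {a : VIdx m w → ℤ_[p]} {s : ℚ_[p]}
    (ha : ∀ k, PadicInt.toZMod (a k) = c k) (hs : ‖s‖ = (p : ℝ))
    (hΦ : ∀ x i, pm Φ x i = (∑ t : {s : Fin (m + 1) →₀ ℕ // s.degree ≤ w i},
        ((a ⟨i, t⟩ : ℤ_[p]) : ℚ_[p]) * ∏ j, x j ^ (t : Fin (m + 1) →₀ ℕ) j) +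
          if i = Fin.last m then s * x (Fin.last m) ^ w (Fin.last m) else 0)
    (y : Fin (m + 1) → ℤ_[p]) (hy : red y (Fin.last m) = 0) :
    ∃ y' : Fin (m + 1) → ℤ_[p], pm Φ (inc y) = inc y' ∧ red y' = pm (vP c) (red y) := by
  obtain ⟨z, hz1, hz2⟩ := special_small hd hs (y (Fin.last m)) ((toZMod_eq_zero_iff _).1 hy)
  refine ⟨fun i => (∑ t : {s : Fin (m + 1) →₀ ℕ // s.degree ≤ w i},
    a ⟨i, t⟩ * ∏ j, y j ^ (t : Fin (m + 1) →₀ ℕ) j) + if i = Fin.last m then z else 0, ?_, ?_⟩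
  · funext i
    rw [hΦ]
    simp only [inc]
    rw [PadicInt.coe_add, PadicInt.coe_sum]
    congr 1
    · refine Finset.sum_congr rfl fun t _ => ?_
      rw [PadicInt.coe_mul]
      congr 1
      exact (coe_prod_pow y t).symm
    · split_ifs
      · exact hz1.symm
      · simp
  · funext i
    simp only [red]
    rw [map_add, map_sum, pm, eval_vP]
    have h1 : PadicInt.toZMod (if i = Fin.last m then z else 0) = 0 := by
      split_ifs
      · exact hz2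
      · exact map_zero _
    rw [h1, add_zero]
    refine Finset.sum_congr rfl fun t _ => ?_
    rw [map_mul, ha, map_prod]
    simp only [map_pow, red]

/-- One step at an integral point whose reduction is not in the hyperplane. -/
theorem stepA' {Φ : Fin (m + 1) → MvPolynomial (Fin (m + 1)) ℚ_[p]}
    {a : VIdx m w → ℤ_[p]} {s : ℚ_[p]} (hs : ‖s‖ = (p : ℝ))
    (hΦ : ∀ x i, pm Φ x i = (∑ t : {s : Fin (m + 1) →₀ ℕ // s.degree ≤ w i},
        ((a ⟨i, t⟩ : ℤ_[p]) : ℚ_[p]) * ∏ j, x j ^ (t : Fin (m + 1) →₀ ℕ) j) +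
          if i = Fin.last m then s * x (Fin.last m) ^ w (Fin.last m) else 0)
    (y : Fin (m + 1) → ℤ_[p]) (hy : red y (Fin.last m) ≠ 0) :
    GEsc (pm Φ (inc y)) := by
  have hp1 : (1 : ℝ) < p := by exact_mod_cast hp.out.one_lt
  have h0 : ‖y (Fin.last m)‖ = 1 := norm_eq_one_of_toZMod _ hy
  have h1 : ∀ i, ‖∑ t : {s : Fin (m + 1) →₀ ℕ // s.degree ≤ w i},
      ((a ⟨i, t⟩ : ℤ_[p]) : ℚ_[p]) * ∏ j, inc y j ^ (t : Fin (m + 1) →₀ ℕ) j‖ ≤ 1 := by
    intro i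
    have h2 : (∑ t : {s : Fin (m + 1) →₀ ℕ // s.degree ≤ w i},
      ((a ⟨i, t⟩ : ℤ_[p]) : ℚ_[p]) * ∏ j, inc y j ^ (t : Fin (m + 1) →₀ ℕ) j) =
      ((∑ t : {s : Fin (m + 1) →₀ ℕ // s.degree ≤ w i},
        a ⟨i, t⟩ * ∏ j, y j ^ (t : Fin (m + 1) →₀ ℕ) j : ℤ_[p]) : ℚ_[p]) := by
      rw [PadicInt.coe_sum]
      refine Finset.sum_congr rfl fun t _ => ?_
      rw [PadicInt.coe_mul]
      congr 1
      exact (coe_prod_pow y t).symm
    rw [h2]
    exact PadicInt.norm_le_one _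
  have h2 : ‖pm Φ (inc y) (Fin.last m)‖ = (p : ℝ) := by
    rw [hΦ, if_pos rfl]
    have h3 : ‖s * inc y (Fin.last m) ^ w (Fin.last m)‖ = (p : ℝ) := by
      rw [norm_mul, norm_pow, hs]
      have : ‖inc y (Fin.last m)‖ = 1 := h0
      rw [this, one_pow, mul_one]
    rw [IsUltrametricDist.norm_add_eq_max_of_norm_ne_norm, h3]
    · exact max_eq_right ((h1 _).trans hp1.le)
    · rw [h3]
      exact fun h => absurd (h ▸ h1 (Fin.last m)) (not_le.2 hp1)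
  refine ⟨h2.ge, fun i => ?_⟩
  rw [h2]
  by_cases hi : i = Fin.last m
  · rw [hi, h2]
  · rw [hΦ, if_neg hi, add_zero]
    exact (h1 i).trans hp1.le

/-- Escape of integral points. -/
theorem escA (hd : 2 ≤ w (Fin.last m)) {Φ : Fin (m + 1) → MvPolynomial (Fin (m + 1)) ℚ_[p]}
    {c : VIdx m w → ZMod p} {a : VIdx m w → ℤ_[p]} {s : ℚ_[p]}
    (ha : ∀ k, PadicInt.toZMod (a k) = c k) (hs : ‖s‖ = (p : ℝ))
    (hΦ : ∀ x i, pm Φ x i = (∑ t : {s : Fin (m + 1) →₀ ℕ // s.degree ≤ w i},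
        ((a ⟨i, t⟩ : ℤ_[p]) : ℚ_[p]) * ∏ j, x j ^ (t : Fin (m + 1) →₀ ℕ) j) +
          if i = Fin.last m then s * x (Fin.last m) ^ w (Fin.last m) else 0) (k : ℕ) : ∀
    (y : Fin (m + 1) → ℤ_[p]) (_ : (pm (vP c))^[k] (red y) (Fin.last m) ≠ 0),
    ∃ n, GEsc ((pm Φ)^[n] (inc y)) := by
  induction k with
  | zero =>
    intro y hy
    exact ⟨1, stepA' hs hΦ y hy⟩
  | succ k ih =>
    intro y hy
    by_cases h0 : red y (Fin.last m) = 0
    · obtain ⟨y', h1, h2⟩ := stepA hd ha hs hΦ y h0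
      rw [Function.iterate_succ_apply, ← h2] at hy
      obtain ⟨n, hn⟩ := ih y' hy
      refine ⟨n + 1, ?_⟩
      rw [Function.iterate_succ_apply, h1]
      exact hn
    · exact ⟨1, stepA' hs hΦ y h0⟩

/-- One step at a large point whose direction is in the hyperplane: the form of the values. -/
theorem stepB (hd : 2 ≤ w (Fin.last m)) {Φ : Fin (m + 1) → MvPolynomial (Fin (m + 1)) ℚ_[p]}
    {c : VIdx m w → ZMod p} {a : VIdx m w → ℤ_[p]} {s : ℚ_[p]}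
    (ha : ∀ k, PadicInt.toZMod (a k) = c k) (hs : ‖s‖ = (p : ℝ))
    (hΦ : ∀ x i, pm Φ x i = (∑ t : {s : Fin (m + 1) →₀ ℕ // s.degree ≤ w i},
        ((a ⟨i, t⟩ : ℤ_[p]) : ℚ_[p]) * ∏ j, x j ^ (t : Fin (m + 1) →₀ ℕ) j) +
          if i = Fin.last m then s * x (Fin.last m) ^ w (Fin.last m) else 0)
    (y : Fin (m + 1) → ℤ_[p]) (hy : red y (Fin.last m) = 0) (k : ℕ) (hk : 1 ≤ k) :
    ∃ W : Fin (m + 1) → ℤ_[p],
      (∀ i, pm Φ (((p : ℚ_[p])⁻¹) ^ k • inc y) i =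
        ((p : ℚ_[p])⁻¹) ^ (k * w i) * ((W i : ℤ_[p]) : ℚ_[p])) ∧
      red W = pm (vF c) (red y) := by
  obtain ⟨z, hz1, hz2⟩ := special_small hd hs (y (Fin.last m)) ((toZMod_eq_zero_iff _).1 hy)
  have hp0 : (p : ℚ_[p]) ≠ 0 := by exact_mod_cast hp.out.ne_zero
  refine ⟨fun i => (∑ t : {s : Fin (m + 1) →₀ ℕ // s.degree ≤ w i},
    a ⟨i, t⟩ * ((p : ℤ_[p]) ^ (k * (w i - (t : Fin (m + 1) →₀ ℕ).degree)) *
      ∏ j, y j ^ (t : Fin (m + 1) →₀ ℕ) j)) + if i = Fin.last m then z else 0, ?_, ?_⟩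
  · intro i
    rw [hΦ]
    simp only [inc, Pi.smul_apply, smul_eq_mul]
    rw [PadicInt.coe_add, PadicInt.coe_sum, mul_add, Finset.mul_sum]
    congr 1
    · refine Finset.sum_congr rfl fun t _ => ?_
      rw [PadicInt.coe_mul, PadicInt.coe_mul, PadicInt.coe_pow, PadicInt.coe_natCast]
      rw [coe_prod_pow y t]
      have h3 : ∏ j, ((((p : ℚ_[p])⁻¹) ^ k * ((y j : ℤ_[p]) : ℚ_[p])) ^
          (t : Fin (m + 1) →₀ ℕ) j) = ((p : ℚ_[p])⁻¹) ^ (k * (t : Fin (m + 1) →₀ ℕ).degree) *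
          ∏ j, ((y j : ℤ_[p]) : ℚ_[p]) ^ (t : Fin (m + 1) →₀ ℕ) j := by
        simp only [mul_pow]
        rw [Finset.prod_mul_distrib, Finset.prod_pow_eq_pow_sum, ← Finsupp.degree_eq_sum, pow_mul]
      rw [h3]
      have h4 : k * w i = k * (t : Fin (m + 1) →₀ ℕ).degree +
          k * (w i - (t : Fin (m + 1) →₀ ℕ).degree) := by
        rw [← mul_add]
        congr 1
        have := t.2
        omega
      rw [h4, pow_add]
      have h5 : ((p : ℚ_[p])⁻¹) ^ (k * (w i - (t : Fin (m + 1) →₀ ℕ).degree)) *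
          (p : ℚ_[p]) ^ (k * (w i - (t : Fin (m + 1) →₀ ℕ).degree)) = 1 := by
        rw [← mul_pow, inv_mul_cancel₀ hp0, one_pow]
      linear_combination (-(((a ⟨i, t⟩ : ℤ_[p]) : ℚ_[p]) *
        ((p : ℚ_[p])⁻¹) ^ (k * (t : Fin (m + 1) →₀ ℕ).degree) *
        ∏ j, ((y j : ℤ_[p]) : ℚ_[p]) ^ (t : Fin (m + 1) →₀ ℕ) j)) * h5
    · split_ifs with hi
      · subst hi
        rw [hz1]
        ring
      · simp
  · funext i
    simp only [red]
    rw [map_add, map_sum, pm, eval_vF]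
    have h1 : PadicInt.toZMod (if i = Fin.last m then z else 0) = 0 := by
      split_ifs
      · exact hz2
      · exact map_zero _
    rw [h1, add_zero]
    refine Finset.sum_congr rfl fun t _ => ?_
    rw [map_mul, ha, map_mul, map_pow, map_natCast, map_prod, ZMod.natCast_self]
    split_ifs with h2
    · rw [h2, Nat.sub_self, mul_zero, pow_zero, one_mul]
      simp only [map_pow, red]
    · have h3 : k * (w i - (t : Fin (m + 1) →₀ ℕ).degree) ≠ 0 := by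
        have := t.2
        have h4 : w i - (t : Fin (m + 1) →₀ ℕ).degree ≠ 0 := by omega
        exact Nat.mul_ne_zero (by omega) h4
      rw [zero_pow h3]
      ring

theorem norm_scal (k : ℕ) (x : ℚ_[p]) : ‖((p : ℚ_[p])⁻¹) ^ k * x‖ = (p : ℝ) ^ k * ‖x‖ := by
  rw [norm_mul, norm_pow, norm_inv, Padic.norm_p, inv_inv]

theorem esc_of_red {k : ℕ} (hk : 1 ≤ k) (y : Fin (m + 1) → ℤ_[p]) (hy : red y (Fin.last m) ≠ 0) :
    GEsc (((p : ℚ_[p])⁻¹) ^ k • inc y) := by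
  have hp1 : (1 : ℝ) < p := by exact_mod_cast hp.out.one_lt
  have h0 : ‖y (Fin.last m)‖ = 1 := norm_eq_one_of_toZMod _ hy
  have h1 : ∀ i, ‖(((p : ℚ_[p])⁻¹) ^ k • inc y) i‖ = (p : ℝ) ^ k * ‖y i‖ := by
    intro i
    rw [Pi.smul_apply, smul_eq_mul, norm_scal]
    rfl
  refine ⟨?_, fun i => ?_⟩
  · rw [h1, h0, mul_one]
    calc (p : ℝ) = (p : ℝ) ^ 1 := (pow_one _).symm
      _ ≤ (p : ℝ) ^ k := pow_le_pow_right₀ hp1.le hk
  · rw [h1, h1, h0]
    gcongr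
    exact PadicInt.norm_le_one _


/-- The least degree of a nonzero coordinate. -/
def IsLam {F : Type*} [Field F] (w : Fin (m + 1) → ℕ) (x : Fin (m + 1) → F) (l : ℕ) : Prop :=
  (∃ i, x i ≠ 0 ∧ w i = l) ∧ ∀ i, x i ≠ 0 → l ≤ w i

theorem exists_isLam {F : Type*} [Field F] (w : Fin (m + 1) → ℕ) {x : Fin (m + 1) → F}
    (hx : x ≠ 0) : ∃ l, IsLam w x l := by
  classical
  obtain ⟨i₀, hi₀⟩ : ∃ i, x i ≠ 0 := by
    by_contra h
    push Not at h
    exact hx (funext h)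
  obtain ⟨i, hi, hmin⟩ := Finset.exists_min_image (univ.filter fun i => x i ≠ 0) w
    ⟨i₀, by simp [hi₀]⟩
  rw [Finset.mem_filter] at hi
  exact ⟨w i, ⟨i, hi.2, rfl⟩, fun j hj => hmin j (by simp [hj])⟩

theorem eval_vF_zero (hw : ∀ i, 1 ≤ w i) {F : Type*} [Field F] (c : VIdx m w → F)
    (i : Fin (m + 1)) : eval (0 : Fin (m + 1) → F) (vF c i) = 0 := by
  rw [eval_vF]
  refine Finset.sum_eq_zero fun t _ => ?_
  split_ifs with h
  · have h1 : (t : Fin (m + 1) →₀ ℕ) ≠ 0 := by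
      intro h0
      rw [h0, map_zero] at h
      have := hw i
      omega
    obtain ⟨j, hj⟩ : ∃ j, (t : Fin (m + 1) →₀ ℕ) j ≠ 0 := by
      by_contra h2
      push Not at h2
      exact h1 (Finsupp.ext h2)
    rw [Finset.prod_eq_zero (Finset.mem_univ j), mul_zero]
    rw [Pi.zero_apply, zero_pow hj]
  · rfl

/-- One step at a large point which does not escape. -/
theorem stepC (hw : ∀ i, 1 ≤ w i) (hd : 2 ≤ w (Fin.last m))
    (hlt : ∀ i, i ≠ Fin.last m → w i < w (Fin.last m))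
    {Φ : Fin (m + 1) → MvPolynomial (Fin (m + 1)) ℚ_[p]}
    {c : VIdx m w → ZMod p} {a : VIdx m w → ℤ_[p]} {s : ℚ_[p]}
    (ha : ∀ k, PadicInt.toZMod (a k) = c k) (hs : ‖s‖ = (p : ℝ))
    (hΦ : ∀ x i, pm Φ x i = (∑ t : {s : Fin (m + 1) →₀ ℕ // s.degree ≤ w i},
        ((a ⟨i, t⟩ : ℤ_[p]) : ℚ_[p]) * ∏ j, x j ^ (t : Fin (m + 1) →₀ ℕ) j) +
          if i = Fin.last m then s * x (Fin.last m) ^ w (Fin.last m) else 0)
    (h2 : V2 c) (y : Fin (m + 1) → ℤ_[p]) (hy0 : red y ≠ 0) (hy : red y (Fin.last m) = 0)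
    (k : ℕ) (hk : 1 ≤ k) (hne : ¬ GEsc (pm Φ (((p : ℚ_[p])⁻¹) ^ k • inc y))) {l : ℕ}
    (hl : IsLam w (red y) l) :
    ∃ (k' : ℕ) (y' : Fin (m + 1) → ℤ_[p]) (l' : ℕ), 1 ≤ k' ∧ red y' ≠ 0 ∧
      red y' (Fin.last m) = 0 ∧
      pm Φ (((p : ℚ_[p])⁻¹) ^ k • inc y) = ((p : ℚ_[p])⁻¹) ^ k' • inc y' ∧
      IsLam w (red y') l' ∧ l ≤ l' ∧ (l' = l → Rel c l (red y) (red y')) := by
  classical
  obtain ⟨W, hW, hr⟩ := stepB hd ha hs hΦ y hy k hk
  set X := pm Φ (((p : ℚ_[p])⁻¹) ^ k • inc y) with hX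
  have hp0 : (p : ℚ_[p]) ≠ 0 := by exact_mod_cast hp.out.ne_zero
  have hp1 : (1 : ℝ) < p := by exact_mod_cast hp.out.one_lt
  have hpos : (0 : ℝ) < p := zero_lt_one.trans hp1
  have hXn : ∀ i, ‖X i‖ = (p : ℝ) ^ (k * w i) * ‖W i‖ := by
    intro i
    rw [hW i, norm_scal]
    rfl
  have hXle : ∀ i, ‖X i‖ ≤ (p : ℝ) ^ (k * w i) := by
    intro i
    rw [hXn i]
    have : ‖W i‖ ≤ 1 := PadicInt.norm_le_one _
    calc (p : ℝ) ^ (k * w i) * ‖W i‖ ≤ (p : ℝ) ^ (k * w i) * 1 := by gcongr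
      _ = (p : ℝ) ^ (k * w i) := mul_one _
  have hform : ∀ i, red W i = eval (red y) (vF c i) := fun i => by rw [hr]; rfl
  have hXeq : ∀ i, eval (red y) (vF c i) ≠ 0 → ‖X i‖ = (p : ℝ) ^ (k * w i) := by
    intro i hi
    rw [← hform i] at hi
    rw [hXn i, norm_eq_one_of_toZMod _ hi, mul_one]
  -- the last form vanishes
  have hNform : eval (red y) (vF c (Fin.last m)) = 0 := by
    by_contra hcon
    have h3 := hXeq _ hcon
    apply hne
    refine ⟨?_, fun i => ?_⟩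
    · rw [h3]
      calc (p : ℝ) = (p : ℝ) ^ 1 := (pow_one _).symm
        _ ≤ (p : ℝ) ^ (k * w (Fin.last m)) :=
          pow_le_pow_right₀ hp1.le (Nat.mul_pos (by omega) (by omega))
    · rw [h3]
      refine (hXle i).trans (pow_le_pow_right₀ hp1.le (Nat.mul_le_mul_left _ ?_))
      by_cases hi : i = Fin.last m
      · rw [hi]
      · exact (hlt i hi).le
  have hV : ∀ i : Fin m, w i.castSucc < l → red y i.castSucc = 0 := by
    intro i hi
    by_contra hcon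
    have := hl.2 _ hcon
    omega
  have hcs : ∀ i : Fin m, i.castSucc ≠ Fin.last m := fun i => (Fin.castSucc_lt_last i).ne
  -- some form of degree at least `l` does not vanish
  have hex : ∃ i, i ≠ Fin.last m ∧ l ≤ w i ∧ eval (red y) (vF c i) ≠ 0 := by
    by_contra hcon
    push Not at hcon
    have h3 : ∀ i, i ≠ Fin.last m → l ≤ w i → eval (red y) (vF c i) = 0 := hcon
    have h4 := h2 l (fun n => if n = 0 then red y else 0) (by
      intro n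
      by_cases hn : n = 0
      · subst hn
        simp only [if_pos, Nat.zero_add, one_ne_zero, if_false]
        exact ⟨⟨hy, hV⟩, ⟨rfl, fun _ _ => rfl⟩, fun i hi2 => h3 _ (hcs i) hi2.le, hNform,
          fun i hi2 => (h3 _ (hcs i) hi2.ge).symm⟩
      · simp only [if_neg hn, Nat.succ_ne_zero, if_false]
        exact ⟨⟨rfl, fun _ _ => rfl⟩, ⟨rfl, fun _ _ => rfl⟩, fun i _ => eval_vF_zero hw c _,
          eval_vF_zero hw c _, fun i _ => (eval_vF_zero hw c _).symm⟩)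
    simp only [if_pos] at h4
    exact hy0 h4
  obtain ⟨i₁, hi₁, hmax⟩ := Finset.exists_max_image
    (univ.filter fun i => i ≠ Fin.last m ∧ l ≤ w i ∧ eval (red y) (vF c i) ≠ 0) w (by
      obtain ⟨i, hi⟩ := hex
      exact ⟨i, by rw [Finset.mem_filter]; exact ⟨Finset.mem_univ _, hi⟩⟩)
  rw [Finset.mem_filter] at hi₁
  obtain ⟨-, hi₁N, hi₁l, hi₁f⟩ := hi₁
  set E := w i₁ with hE
  have hE1 : ∀ i, i ≠ Fin.last m → E < w i → eval (red y) (vF c i) = 0 := by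
    intro i hi hEi
    by_contra hcon
    have := hmax i (by
      rw [Finset.mem_filter]
      exact ⟨Finset.mem_univ _, hi, hi₁l.trans hEi.le, hcon⟩)
    omega
  have hbig : ‖X i₁‖ = (p : ℝ) ^ (k * E) := hXeq i₁ hi₁f
  have hkE : 1 ≤ k * E := Nat.mul_pos (by omega) (by have := hw i₁; omega)
  have hbig1 : 1 < ‖X i₁‖ := by
    rw [hbig]
    exact one_lt_pow₀ hp1 (by omega)
  -- the representation of `X`
  rcases cases_point X with ⟨z, hz⟩ | ⟨y', k', hk', hy', hXy⟩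
  · exfalso
    have h3 : ‖X i₁‖ ≤ 1 := by
      rw [hz]
      exact PadicInt.norm_le_one _
    linarith
  have hXn' : ∀ i, ‖X i‖ = (p : ℝ) ^ k' * ‖y' i‖ := by
    intro i
    rw [hXy, Pi.smul_apply, smul_eq_mul, norm_scal]
    rfl
  have hXle' : ∀ i, ‖X i‖ ≤ (p : ℝ) ^ k' := by
    intro i
    rw [hXn' i]
    have : ‖y' i‖ ≤ 1 := PadicInt.norm_le_one _
    calc (p : ℝ) ^ k' * ‖y' i‖ ≤ (p : ℝ) ^ k' * 1 := by gcongr
      _ = (p : ℝ) ^ k' := mul_one _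
  have hXeq' : ∀ i, red y' i ≠ 0 → ‖X i‖ = (p : ℝ) ^ k' := by
    intro i hi
    rw [hXn' i, norm_eq_one_of_toZMod _ hi, mul_one]
  have hpk : ∀ {a b : ℕ}, (p : ℝ) ^ a ≤ (p : ℝ) ^ b → a ≤ b := by
    intro a b hab
    exact (pow_le_pow_iff_right₀ hp1).1 hab
  have hkE' : k * E ≤ k' := hpk (by rw [← hbig]; exact hXle' i₁)
  have hy'N : red y' (Fin.last m) = 0 := by
    by_contra hcon
    have h3 := hXeq' _ hcon
    apply hne
    refine ⟨?_, fun i => ?_⟩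
    · rw [h3]
      calc (p : ℝ) = (p : ℝ) ^ 1 := (pow_one _).symm
        _ ≤ (p : ℝ) ^ k' := pow_le_pow_right₀ hp1.le hk'
    · rw [h3]
      exact hXle' i
  have hlE : ∀ i, red y' i ≠ 0 → k' ≤ k * w i ∧ E ≤ w i := by
    intro i hi
    have h3 : k' ≤ k * w i := hpk (by rw [← hXeq' i hi]; exact hXle i)
    refine ⟨h3, ?_⟩
    have h4 : k * E ≤ k * w i := hkE'.trans h3
    exact Nat.le_of_mul_le_mul_left h4 (by omega)
  obtain ⟨l', hl'⟩ := exists_isLam w hy'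
  refine ⟨k', y', l', hk', hy', hy'N, hXy, hl', ?_, ?_⟩
  · obtain ⟨i, hi, hil⟩ := hl'.1
    have := (hlE i hi).2
    omega
  · intro hll
    obtain ⟨i, hi, hil⟩ := hl'.1
    have h3 := hlE i hi
    have hEl : E = l := by omega
    have hk'l : k' = k * l := by
      have h4 : k' ≤ k * l := by
        have := h3.1
        rwa [hil, hll] at this
      rw [hEl] at hkE'
      omega
    refine ⟨⟨hy, hV⟩, ⟨hy'N, ?_⟩, ?_, hNform, ?_⟩
    · intro j hj
      by_contra hcon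
      have := (hlE _ hcon).2
      omega
    · intro j hlj
      exact hE1 _ (hcs j) (by omega)
    · intro j₀ hjl
      set j := j₀.castSucc with hjdef
      have h5 : ((y' j : ℤ_[p]) : ℚ_[p]) = ((W j : ℤ_[p]) : ℚ_[p]) := by
        have h6 : X j = ((p : ℚ_[p])⁻¹) ^ k' * ((y' j : ℤ_[p]) : ℚ_[p]) := by
          rw [hXy, Pi.smul_apply, smul_eq_mul]
          rfl
        rw [hW j, hjl, ← hk'l] at h6
        have h7 : ((p : ℚ_[p])⁻¹) ^ k' ≠ 0 := pow_ne_zero _ (inv_ne_zero hp0)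
        exact (mul_left_cancel₀ h7 h6).symm
      have h8 : y' j = W j := Subtype.ext h5
      rw [← hform j, red, red, h8]

/-- Escape of large points. -/
theorem escC (hw : ∀ i, 1 ≤ w i) (hd : 2 ≤ w (Fin.last m))
    (hlt : ∀ i, i ≠ Fin.last m → w i < w (Fin.last m))
    {Φ : Fin (m + 1) → MvPolynomial (Fin (m + 1)) ℚ_[p]}
    {c : VIdx m w → ZMod p} {a : VIdx m w → ℤ_[p]} {s : ℚ_[p]}
    (ha : ∀ k, PadicInt.toZMod (a k) = c k) (hs : ‖s‖ = (p : ℝ))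
    (hΦ : ∀ x i, pm Φ x i = (∑ t : {s : Fin (m + 1) →₀ ℕ // s.degree ≤ w i},
        ((a ⟨i, t⟩ : ℤ_[p]) : ℚ_[p]) * ∏ j, x j ^ (t : Fin (m + 1) →₀ ℕ) j) +
          if i = Fin.last m then s * x (Fin.last m) ^ w (Fin.last m) else 0)
    (h2 : V2 c) (y : Fin (m + 1) → ℤ_[p]) (hy0 : red y ≠ 0) (k : ℕ) (hk : 1 ≤ k) :
    ∃ n, GEsc ((pm Φ)^[n] (((p : ℚ_[p])⁻¹) ^ k • inc y)) := by
  classical
  by_contra hcon
  push Not at hcon
  -- the states
  let St : Type := {t : ℕ × (Fin (m + 1) → ℤ_[p]) × ℕ // 1 ≤ t.1 ∧ red t.2.1 ≠ 0 ∧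
    red t.2.1 (Fin.last m) = 0 ∧ IsLam w (red t.2.1) t.2.2 ∧
    ∀ n, ¬ GEsc ((pm Φ)^[n] (((p : ℚ_[p])⁻¹) ^ t.1 • inc t.2.1))}
  have hstep : ∀ t : St, ∃ t' : St, t.1.2.2 ≤ t'.1.2.2 ∧
      (t'.1.2.2 = t.1.2.2 → Rel c t.1.2.2 (red t.1.2.1) (red t'.1.2.1)) := by
    rintro ⟨⟨k, y, l⟩, hk, hy0, hyN, hl, hno⟩
    obtain ⟨k', y', l', h1, h3, h4, h5, h6, h7, h8⟩ :=
      stepC hw hd hlt ha hs hΦ h2 y hy0 hyN k hk (hno 1) hl
    refine ⟨⟨⟨k', y', l'⟩, h1, h3, h4, h6, fun n => ?_⟩, h7, h8⟩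
    have := hno (n + 1)
    rw [Function.iterate_succ_apply] at this
    simp only at this ⊢
    rw [h5] at this
    exact this
  choose nx hnx1 hnx2 using hstep
  have hyN : red y (Fin.last m) = 0 := by
    by_contra h0
    exact hcon 0 (esc_of_red hk y h0)
  obtain ⟨l, hl⟩ := exists_isLam w hy0
  let t₀ : St := ⟨⟨k, y, l⟩, hk, hy0, hyN, hl, hcon⟩
  let T : ℕ → St := fun n => nx^[n] t₀
  have hT : ∀ n, T (n + 1) = nx (T n) := fun n => Function.iterate_succ_apply' _ _ _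
  have hmono : Monotone fun n => (T n).1.2.2 := by
    refine monotone_nat_of_le_succ fun n => ?_
    rw [hT]
    exact hnx1 _
  have hbdd : ∀ n, (T n).1.2.2 ≤ ∑ i, w i := by
    intro n
    obtain ⟨i, -, hi⟩ := (T n).2.2.2.2.1.1
    rw [← hi]
    exact Finset.single_le_sum (f := w) (fun _ _ => Nat.zero_le _) (Finset.mem_univ i)
  obtain ⟨n₀, hn₀⟩ : ∃ n₀, ∀ n, n₀ ≤ n → (T n).1.2.2 = (T n₀).1.2.2 := by
    have hb : BddAbove (Set.range fun n => (T n).1.2.2) :=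
      ⟨∑ i, w i, by rintro _ ⟨n, rfl⟩; exact hbdd n⟩
    obtain ⟨n₀, hn₀⟩ := Nat.sSup_mem (Set.range_nonempty fun n => (T n).1.2.2) hb
    refine ⟨n₀, fun n hn => le_antisymm ?_ (hmono hn)⟩
    simp only at hn₀
    rw [hn₀]
    exact le_csSup hb ⟨n, rfl⟩
  have h3 := h2 (T n₀).1.2.2 (fun n => red (T (n₀ + n)).1.2.1) (by
    intro n
    have h4 := hn₀ (n₀ + n) (by omega)
    have h5 := hn₀ (n₀ + n + 1) (by omega)
    have h6 := hnx2 (T (n₀ + n)) (by rw [← hT, h5, h4])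
    rw [h4, ← hT] at h6
    exact h6)
  exact (T n₀).2.2.1 h3

/-- **Trap theorem.** Every point escapes. -/
theorem vtrap (hw : ∀ i : Fin m, 1 ≤ w i.castSucc ∧ w i.castSucc < w (Fin.last m))
    (hd : 2 ≤ w (Fin.last m)) {Φ : Fin (m + 1) → MvPolynomial (Fin (m + 1)) ℚ_[p]} (hΦ : VPre p m w Φ)
    {c : VIdx m w → ZMod p} (hc : VRed Φ c) (h1 : V1 c) (h2 : V2 c)
    (x : Fin (m + 1) → ℚ_[p]) : ∃ n, GEsc ((pm Φ)^[n] x) := by
  have hw1 : ∀ i, 1 ≤ w i := by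
    intro i
    refine Fin.lastCases (by omega) (fun i => (hw i).1) i
  have hlt : ∀ i, i ≠ Fin.last m → w i < w (Fin.last m) := by
    intro i
    refine Fin.lastCases (fun h => absurd rfl h) (fun i _ => (hw i).2) i
  obtain ⟨a, s, ha, hs, hΦx⟩ := exists_lift hΦ hc
  rcases cases_point x with ⟨y, rfl⟩ | ⟨y, k, hk, hy, rfl⟩
  · by_cases h0 : red y (Fin.last m) = 0
    · obtain ⟨n, hn⟩ := h1 (red y) h0
      exact escA hd ha hs hΦx n y hn
    · exact escA hd ha hs hΦx 0 y h0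
  · exact escC hw1 hd hlt ha hs hΦx h2 y hy k hk

end Pool.Agent.Helper86.DV
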