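import Pool.Agent.Helper86.DV.Finite

/-!
# Random maps with a dominant last component, arbitrary degrees: the escape time is bounded
-/

set_option autoImplicit false

namespace Pool.Agent.Helper86.DV

open Finset MvPolynomial
open Pool.Agent.Helper86.MQ (pm)
open Pool.Agent.Helper26.MQ (red inc coe_prod_pow toZMod_eq_zero_iff norm_eq_one_of_toZMod
  special_small cases_point)
open Pool.Agent.Helper26.GG (GEsc)
open Pool.Agent.Helper26.DV

variable {m : ℕ} {w : Fin (m + 1) → ℕ} {p : ℕ} [hp : Fact p.Prime]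

/-- Escape of integral points, with a bound. -/
theorem escA_le (hd : 2 ≤ w (Fin.last m)) {Φ : Fin (m + 1) → MvPolynomial (Fin (m + 1)) ℚ_[p]}
    {c : VIdx m w → ZMod p} {a : VIdx m w → ℤ_[p]} {s : ℚ_[p]}
    (ha : ∀ k, PadicInt.toZMod (a k) = c k) (hs : ‖s‖ = (p : ℝ))
    (hΦ : ∀ x i, pm Φ x i = (∑ t : {s : Fin (m + 1) →₀ ℕ // s.degree ≤ w i},
        ((a ⟨i, t⟩ : ℤ_[p]) : ℚ_[p]) * ∏ j, x j ^ (t : Fin (m + 1) →₀ ℕ) j) +
          if i = Fin.last m then s * x (Fin.last m) ^ w (Fin.last m) else 0) (k : ℕ) : ∀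
    (y : Fin (m + 1) → ℤ_[p]) (_ : (pm (vP c))^[k] (red y) (Fin.last m) ≠ 0),
    ∃ n, n ≤ k + 1 ∧ GEsc ((pm Φ)^[n] (inc y)) := by
  induction k with
  | zero =>
    intro y hy
    exact ⟨1, le_rfl, stepA' hs hΦ y hy⟩
  | succ k ih =>
    intro y hy
    by_cases h0 : red y (Fin.last m) = 0
    · obtain ⟨y', h1, h2⟩ := stepA hd ha hs hΦ y h0
      rw [Function.iterate_succ_apply, ← h2] at hy
      obtain ⟨n, hnk, hn⟩ := ih y' hy
      refine ⟨n + 1, by omega, ?_⟩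
      rw [Function.iterate_succ_apply, h1]
      exact hn
    · exact ⟨1, by omega, stepA' hs hΦ y h0⟩

/-- the point of a state -/
noncomputable def pt (p : ℕ) [Fact p.Prime] (t : ℕ × (Fin (m + 1) → ℤ_[p]) × ℕ) :
    Fin (m + 1) → ℚ_[p] := ((p : ℚ_[p])⁻¹) ^ t.1 • inc t.2.1

/-- the states -/
def Good (w : Fin (m + 1) → ℕ) (t : ℕ × (Fin (m + 1) → ℤ_[p]) × ℕ) : Prop :=
  1 ≤ t.1 ∧ red t.2.1 ≠ 0 ∧ red t.2.1 (Fin.last m) = 0 ∧ IsLam w (red t.2.1) t.2.2

/-- Escape of large points, with a uniform bound. -/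
theorem escC_unif (hw : ∀ i, 1 ≤ w i) (hd : 2 ≤ w (Fin.last m))
    (hlt : ∀ i, i ≠ Fin.last m → w i < w (Fin.last m))
    {Φ : Fin (m + 1) → MvPolynomial (Fin (m + 1)) ℚ_[p]}
    {c : VIdx m w → ZMod p} {a : VIdx m w → ℤ_[p]} {s : ℚ_[p]}
    (ha : ∀ k, PadicInt.toZMod (a k) = c k) (hs : ‖s‖ = (p : ℝ))
    (hΦ : ∀ x i, pm Φ x i = (∑ t : {s : Fin (m + 1) →₀ ℕ // s.degree ≤ w i},
        ((a ⟨i, t⟩ : ℤ_[p]) : ℚ_[p]) * ∏ j, x j ^ (t : Fin (m + 1) →₀ ℕ) j) +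
          if i = Fin.last m then s * x (Fin.last m) ^ w (Fin.last m) else 0)
    (h2 : V2 c) : ∃ M : ℕ, ∀ (y : Fin (m + 1) → ℤ_[p]) (_ : red y ≠ 0) (k : ℕ) (_ : 1 ≤ k),
    ∃ n, n ≤ M ∧ GEsc ((pm Φ)^[n] (((p : ℚ_[p])⁻¹) ^ k • inc y)) := by
  classical
  -- one step
  have hstep : ∀ t : ℕ × (Fin (m + 1) → ℤ_[p]) × ℕ, ∃ t' : ℕ × (Fin (m + 1) → ℤ_[p]) × ℕ,
      Good w t → ¬ GEsc (pm Φ (pt p t)) → Good w t' ∧ pm Φ (pt p t) = pt p t' ∧
        t.2.2 ≤ t'.2.2 ∧ (t'.2.2 = t.2.2 → Rel c t.2.2 (red t.2.1) (red t'.2.1)) := by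
    intro t
    by_cases hg : Good w t ∧ ¬ GEsc (pm Φ (pt p t))
    · obtain ⟨⟨hk, hy0, hyN, hl⟩, hno⟩ := hg
      obtain ⟨k', y', l', h1, h3, h4, h5, h6, h7, h8⟩ :=
        stepC hw hd hlt ha hs hΦ h2 t.2.1 hy0 hyN t.1 hk hno hl
      exact ⟨⟨k', y', l'⟩, fun _ _ => ⟨⟨h1, h3, h4, h6⟩, h5, h7, h8⟩⟩
    · exact ⟨t, fun h3 h4 => absurd ⟨h3, h4⟩ hg⟩
  choose nx hnx using hstep
  set St : Type := Fin (∑ i, w i + 1) × (Fin (m + 1) → ZMod p) with hSt
  refine ⟨Fintype.card St, fun y hy0 k hk => ?_⟩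
  by_contra hcon
  push Not at hcon
  have hyN : red y (Fin.last m) = 0 := by
    by_contra h0
    exact hcon 0 (Nat.zero_le _) (esc_of_red hk y h0)
  obtain ⟨l, hl⟩ := exists_isLam w hy0
  set t₀ : ℕ × (Fin (m + 1) → ℤ_[p]) × ℕ := ⟨k, y, l⟩ with ht₀
  set T : ℕ → ℕ × (Fin (m + 1) → ℤ_[p]) × ℕ := fun n => nx^[n] t₀ with hTdef
  have hT : ∀ n, T (n + 1) = nx (T n) := fun n => Function.iterate_succ_apply' _ _ _
  have hgood : ∀ n, n ≤ Fintype.card St → Good w (T n) ∧ pt p (T n) = (pm Φ)^[n] (pt p t₀) := by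
    intro n
    induction n with
    | zero => intro _; exact ⟨⟨hk, hy0, hyN, hl⟩, rfl⟩
    | succ n ih =>
      intro hn
      obtain ⟨h3, h4⟩ := ih (by omega)
      have h5 : ¬ GEsc (pm Φ (pt p (T n))) := by
        rw [h4, ← Function.iterate_succ_apply' (pm Φ)]
        exact hcon _ hn
      obtain ⟨h6, h7, -, -⟩ := hnx (T n) h3 h5
      rw [hT]
      refine ⟨h6, ?_⟩
      rw [← h7, h4, Function.iterate_succ_apply']
  have hstep' : ∀ n, n < Fintype.card St → (T n).2.2 ≤ (T (n + 1)).2.2 ∧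
      ((T (n + 1)).2.2 = (T n).2.2 → Rel c (T n).2.2 (red (T n).2.1) (red (T (n + 1)).2.1)) := by
    intro n hn
    obtain ⟨h3, h4⟩ := hgood n hn.le
    have h5 : ¬ GEsc (pm Φ (pt p (T n))) := by
      rw [h4, ← Function.iterate_succ_apply' (pm Φ)]
      exact hcon _ hn
    obtain ⟨-, -, h8, h9⟩ := hnx (T n) h3 h5
    rw [hT]
    exact ⟨h8, h9⟩
  have hbdd : ∀ n, n ≤ Fintype.card St → (T n).2.2 < ∑ i, w i + 1 := by
    intro n hn
    obtain ⟨i, -, hi⟩ := (hgood n hn).1.2.2.2.1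
    rw [← hi]
    have := Finset.single_le_sum (f := w) (fun _ _ => Nat.zero_le _) (Finset.mem_univ i)
    omega
  -- the pigeonhole principle
  obtain ⟨i, j, hij, heq⟩ := Fintype.exists_ne_map_eq_of_card_lt
    (fun n : Fin (Fintype.card St + 1) =>
      (⟨⟨(T n).2.2, hbdd n (Nat.lt_succ_iff.1 n.2)⟩, red (T n).2.1⟩ : St)) (by
        rw [Fintype.card_fin]
        exact Nat.lt_succ_self _)
  wlog hlt' : i < j generalizing i j
  · exact this j i hij.symm heq.symm (lt_of_le_of_ne (not_lt.1 hlt') hij.symm)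
  have hij' : (i : ℕ) < j := hlt'
  have hj : (j : ℕ) ≤ Fintype.card St := Nat.lt_succ_iff.1 j.2
  have hl1 : (T i).2.2 = (T j).2.2 := by
    have := congrArg (fun z : St => (z.1 : ℕ)) heq
    exact this
  have hr1 : red (T i).2.1 = red (T j).2.1 := congrArg (fun z : St => z.2) heq
  have hmono : ∀ a b : ℕ, (i : ℕ) + a + b ≤ j → (T (i + a)).2.2 ≤ (T (i + a + b)).2.2 := by
    intro a b
    induction b with
    | zero => intro _; exact le_rfl
    | succ b ih =>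
      intro hb
      refine (ih (by omega)).trans ?_
      exact (hstep' (i + a + b) (by omega)).1
  have hconst : ∀ a : ℕ, (i : ℕ) + a ≤ j → (T (i + a)).2.2 = (T i).2.2 := by
    intro a ha
    have h3 := hmono 0 a (by omega)
    have h4 := hmono a (j - i - a) (by omega)
    have h5 : (i : ℕ) + a + (j - i - a) = j := by omega
    rw [h5] at h4
    simp only [add_zero] at h3
    omega
  have hrel : ∀ a : ℕ, (i : ℕ) + a < j →
      Rel c (T i).2.2 (red (T (i + a)).2.1) (red (T (i + a + 1)).2.1) := by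
    intro a ha
    have h3 := hconst a ha.le
    have h4 := hconst (a + 1) (by omega)
    have h5 := (hstep' (i + a) (by omega)).2 (by rw [h3]; exact h4)
    rw [h3] at h5
    exact h5
  set P : ℕ := j - i with hP
  have hP0 : 0 < P := by omega
  have h3 := h2 (T i).2.2 (fun n => red (T (i + n % P)).2.1) (by
    intro n
    have hlt2 : n % P < P := Nat.mod_lt _ hP0
    have h4 := hrel (n % P) (by omega)
    by_cases h5 : n % P + 1 = P
    · have h6 : (n + 1) % P = 0 := by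
        rw [Nat.add_mod]
        rcases Nat.lt_or_ge 1 P with h7 | h7
        · rw [Nat.mod_eq_of_lt h7, h5, Nat.mod_self]
        · have h8 : P = 1 := by omega
          rw [h8, Nat.mod_one]
      simp only [h6]
      have h7 : (i : ℕ) + n % P + 1 = j := by omega
      rw [h7, ← hr1] at h4
      exact h4
    · have h6 : (n + 1) % P = n % P + 1 := by
        rw [Nat.add_mod]
        rcases Nat.lt_or_ge 1 P with h7 | h7
        · rw [Nat.mod_eq_of_lt h7, Nat.mod_eq_of_lt (by omega)]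
        · omega
      simp only [h6]
      exact h4)
  simp only [Nat.zero_mod, add_zero] at h3
  exact (hgood i (by omega)).1.2.1 h3

/-- **Trap theorem**, with a uniform bound of the escape time. -/
theorem vtrap_unif (hw : ∀ i : Fin m, 1 ≤ w i.castSucc ∧ w i.castSucc < w (Fin.last m))
    (hd : 2 ≤ w (Fin.last m)) {Φ : Fin (m + 1) → MvPolynomial (Fin (m + 1)) ℚ_[p]} (hΦ : VPre p m w Φ)
    {c : VIdx m w → ZMod p} (hc : VRed Φ c) (h1 : V1 c) (h2 : V2 c) :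
    ∃ n₁ : ℕ, ∀ n, n₁ ≤ n → ∀ x : Fin (m + 1) → ℚ_[p], GEsc ((pm Φ)^[n] x) := by
  classical
  have hw1 : ∀ i, 1 ≤ w i := by
    intro i
    refine Fin.lastCases (by omega) (fun i => (hw i).1) i
  have hlt : ∀ i, i ≠ Fin.last m → w i < w (Fin.last m) := by
    intro i
    refine Fin.lastCases (fun h => absurd rfl h) (fun i _ => (hw i).2) i
  obtain ⟨a, s, ha, hs, hΦx⟩ := exists_lift hΦ hc
  -- a bound for the residues
  have hK : ∃ K : ℕ, ∀ x : Fin (m + 1) → ZMod p, ∃ k, k ≤ K ∧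
      (pm (vP c))^[k] x (Fin.last m) ≠ 0 := by
    have h3 : ∀ x : Fin (m + 1) → ZMod p, ∃ k, (pm (vP c))^[k] x (Fin.last m) ≠ 0 := by
      intro x
      by_cases h0 : x (Fin.last m) = 0
      · exact h1 x h0
      · exact ⟨0, h0⟩
    choose κ hκ using h3
    exact ⟨∑ x, κ x, fun x => ⟨κ x, Finset.single_le_sum (f := κ) (fun _ _ => Nat.zero_le _)
      (Finset.mem_univ x), hκ x⟩⟩
  obtain ⟨K, hK⟩ := hK
  obtain ⟨M, hM⟩ := escC_unif hw1 hd hlt ha hs hΦx h2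
  obtain ⟨e, he1, he2⟩ := exists_bound (fun i => (hw i).2) (by omega : 1 ≤ w (Fin.last m))
  have hstep : ∀ (x : Fin (m + 1) → ℚ_[p]) (n k : ℕ), GEsc ((pm Φ)^[n] x) →
      GEsc ((pm Φ)^[n + k] x) := by
    intro x n k hx
    induction k with
    | zero => exact hx
    | succ k ih =>
      have h3 := (Pool.Agent.Helper86.GG.gesc_step he1.le (gpre_of_vpre he2 hΦ) ih).1
      rw [← Function.iterate_succ_apply' (pm Φ)] at h3
      exact h3
  refine ⟨K + 1 + M, fun n hn x => ?_⟩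
  have hex : ∃ k, k ≤ K + 1 + M ∧ GEsc ((pm Φ)^[k] x) := by
    rcases cases_point x with ⟨y, rfl⟩ | ⟨y, k, hk, hy, rfl⟩
    · obtain ⟨k, hkK, hk⟩ := hK (red y)
      obtain ⟨n, hn1, hn2⟩ := escA_le hd ha hs hΦx k y hk
      exact ⟨n, by omega, hn2⟩
    · obtain ⟨n, hn1, hn2⟩ := hM y hy k hk
      exact ⟨n, by omega, hn2⟩
  obtain ⟨k, hk1, hk2⟩ := hex
  have h3 := hstep x k (n - k) hk2
  rwa [show k + (n - k) = n by omega] at h3

end Pool.Agent.Helper86.DV
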